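import Pool.Agent.helper36.PP.SpecL

/-! Project pp: (MP_70a088_an): module IP: invariance of the pairing. -/

set_option autoImplicit false

open Complex Metric Set Filter Topology MeasureTheory MPS MQ Pool.Agent.helper98.ILF

noncomputable section

namespace PPS

theorem IP (hCB : CB_stmt) (hNB : NB_stmt) (hPRB : PRB_stmt) : IP_stmt := by
  intro f A μ hn hμ q K hq hK hint
  obtain ⟨hmem, -, -, -, hfin, -⟩ := hPRB f hn
  obtain ⟨h1, h2⟩ := hCB f hn (fun y => μ y * q y) K (hμ.meas.mul hq) hK hint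
  have hnull : volume {w : ℂ | ¬ (μ (f.eval w) * (starRingEnd ℂ) (fd f w) / fd f w = μ w)} = 0 :=
    ae_iff.mp hμ.inv
  have hNB' := hNB f hn _ hnull
  have hne : ∀ᵐ z : ℂ, z ∉ CV f := by
    rw [ae_iff]
    simp only [not_not, setOf_mem_eq]
    exact hfin.measure_zero _
  have hae : ∀ᵐ z : ℂ, ((pre f z).map fun y => (fun y => μ y * q y) y /
        ((‖fd f y‖ ^ 2 : ℝ) : ℂ)).sum = μ z * TT f q z := by
    filter_upwards [hNB', hne] with z hz hzc
    rw [TT, ← Multiset.sum_map_mul_left]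
    refine congrArg Multiset.sum (Multiset.map_congr rfl fun y hy => ?_)
    have hj' := hz y hy
    simp only [mem_setOf_eq, not_not] at hj'
    have hyz : f.eval y = z := (hmem z y).1 hy
    have hfd : fd f y ≠ 0 := fun h => hzc ⟨y, h, hyz⟩
    have hnorm : ((‖fd f y‖ ^ 2 : ℝ) : ℂ) = fd f y * (starRingEnd ℂ) (fd f y) := by
      rw [Complex.mul_conj, Complex.normSq_eq_norm_sq]
    have hcj : (starRingEnd ℂ) (fd f y) ≠ 0 := by
      rwa [Ne, map_eq_zero]
    rw [hyz] at hj'
    show μ y * q y / ((‖fd f y‖ ^ 2 : ℝ) : ℂ) = μ z * (q y / fd f y ^ 2)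
    rw [hnorm, ← hj']
    field_simp
  have haeK := ae_restrict_of_ae (s := K) hae
  exact ⟨h1.congr haeK, by rw [← h2]; exact (integral_congr_ae haeK).symm⟩

end PPS
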