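import Pool.Agent.helper25.PP.Spec

set_option autoImplicit false

namespace PP

open Finset SimpleGraph CT

theorem NE_k (n k : ℕ) (hn : 5 ≤ n) (h1 : 1 ≤ k) (h4 : k ≤ 4) : ((k : ℕ) : ZMod n) ≠ 0 := by
  intro h
  rw [ZMod.natCast_eq_zero_iff] at h
  have := Nat.le_of_dvd (by omega) h
  omega

/-- The circulant graph `x ~ x ± 1, x ± 2`. -/
def NE_G (n : ℕ) (hn : 5 ≤ n) : SimpleGraph (ZMod n) where
  Adj x y := y - x ∈ ({1, -1, 2, -2} : Set (ZMod n))
  symm := ⟨by
    intro x y h
    simp only [Set.mem_insert_iff, Set.mem_singleton_iff] at h ⊢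
    have e : x - y = -(y - x) := by ring
    rw [e]
    rcases h with h | h | h | h <;> rw [h] <;> simp⟩
  loopless := ⟨by
    intro x h
    have h1 := NE_k n 1 hn (by norm_num) (by norm_num)
    have h2 := NE_k n 2 hn (by norm_num) (by norm_num)
    push_cast at h1 h2
    simp only [Set.mem_insert_iff, Set.mem_singleton_iff, sub_self] at h
    rcases h with h | h | h | h
    · exact h1 h.symm
    · exact h1 (by rw [← neg_neg (1 : ZMod n), ← h, neg_zero])
    · exact h2 h.symm
    · exact h2 (by rw [← neg_neg (2 : ZMod n), ← h, neg_zero])⟩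

theorem NE_card (n : ℕ) (hn : 5 ≤ n) (u : ZMod n) :
    Nat.card {w // (NE_G n hn).Adj u w} = 4 := by
  classical
  have h1 := NE_k n 1 hn (by norm_num) (by norm_num)
  have h2 := NE_k n 2 hn (by norm_num) (by norm_num)
  have h3 := NE_k n 3 hn (by norm_num) (by norm_num)
  have h4 := NE_k n 4 hn (by norm_num) (by norm_num)
  push_cast at h1 h2 h3 h4
  have hcard : (({1, -1, 2, -2} : Finset (ZMod n))).card = 4 := by
    rw [Finset.card_insert_of_notMem, Finset.card_insert_of_notMem,
      Finset.card_insert_of_notMem, Finset.card_singleton]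
    · simp only [Finset.mem_singleton]
      intro h
      exact h4 (by linear_combination h)
    · simp only [Finset.mem_insert, Finset.mem_singleton, not_or]
      refine ⟨fun h => h3 (by linear_combination -h), fun h => h1 (by linear_combination h)⟩
    · simp only [Finset.mem_insert, Finset.mem_singleton, not_or]
      refine ⟨fun h => h2 (by linear_combination h), fun h => h1 (by linear_combination -h),
        fun h => h3 (by linear_combination h)⟩
  rw [← hcard, ← Nat.card_eq_finsetCard]
  refine Nat.card_congr ⟨fun w => ⟨w.1 - u, ?_⟩, fun z => ⟨z.1 + u, ?_⟩, ?_, ?_⟩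
  · have := w.2
    simpa [NE_G] using this
  · have := z.2
    simp only [Finset.mem_insert, Finset.mem_singleton] at this
    simpa [NE_G] using this
  · intro w; simp
  · intro z; simp

/-- Module NE. -/
theorem NE : NE_stmt := by
  intro n hn
  obtain ⟨m, rfl⟩ : ∃ m, n = m + 1 := ⟨n - 1, by omega⟩
  exact ⟨NE_G (m + 1) hn, fun u => NE_card (m + 1) hn u⟩

end PP
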