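import Pool.Agent.helper36.PP.SpecC

/-!
# Project pp: (MP_70a088_an): module PH2, the conclusion of Phase 2
-/

set_option autoImplicit false

open Complex Metric Set Filter Topology MeasureTheory MPS

noncomputable section

namespace PPS

section
variable {n k : ℕ} [NeZero k] {f : Polynomial ℂ} {b g : ZMod k → ℂ} {ψ : ZMod k → ℂ → ℂ}
  {ra R ε y ρ₁ : ℝ} {χ : ℂ → ℂ} {G1 : ℕ → ℂ → ℂ} {ps : ℕ} {T : ℕ → ℝ} {G : ℕ → ℂ → ℂ} {Q : ℕ}

theorem PH2_restrict (h : H2 n k f b g ψ ra R ε y ρ₁ χ G1 ps T G Q) {q : ℕ} (hq : q ≤ Q) :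
    H2 n k f b g ψ ra R ε y ρ₁ χ G1 ps T G q := by
  refine ⟨h.su2, ⟨h.sys.t0, fun p hp => h.sys.anti p (by omega), fun p hp => h.sys.low p (by omega),
    h.sys.g0, fun p hp => h.sys.diff p (by omega), fun p hp => h.sys.rel p (by omega),
    fun p hp => h.sys.val p (by omega), fun p h1 hp => h.sys.disj p h1 (by omega)⟩,
    hq.trans h.hQ⟩

theorem PH2_anti (h : H2 n k f b g ψ ra R ε y ρ₁ χ G1 ps T G Q) {p q : ℕ} (hpq : p ≤ q)
    (hq : q ≤ Q) : T q ≤ T p := by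
  induction q, hpq using Nat.le_induction with
  | base => exact le_rfl
  | succ q hpq ih => exact (h.sys.anti q (by omega)).trans (ih (by omega))

theorem PH2_iter (h : H2 n k f b g ψ ra R ε y ρ₁ χ G1 ps T G Q) {p : ℕ} (hp : p ≤ Q) {w : ℂ}
    (hw : w ∈ ball (ctr y ρ₁) (T p)) {q : ℕ} (hq : q ≤ p) :
    (fun z : ℂ => f.eval z)^[q] (G p w) = G (p - q) w := by
  induction q with
  | zero => simp
  | succ q ih =>
    rw [Function.iterate_succ_apply', ih (by omega)]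
    have h1 : p - q = (p - (q + 1)) + 1 := by omega
    rw [h1]
    refine (h.sys.rel (p - (q + 1)) (by omega) w ?_).1
    rw [← h1]
    exact ball_subset_ball (PH2_anti h (Nat.sub_le _ _) hp) hw

theorem PH2_eps (h : H2 n k f b g ψ ra R ε y ρ₁ χ G1 ps T G Q) : 0 ≤ ε := by
  have h1 := h.su2.su.hE
  have h2 : 0 ≤ Real.log ‖rho f b‖ := Real.log_nonneg h.su2.su.rho1.le
  have h3 : 0 ≤ ∫ z in ball (0 : ℂ) R, ‖er f b g z‖ := integral_nonneg fun _ => norm_nonneg _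
  have h4 := Real.pi_pos
  have h5 : 0 ≤ 2 * Real.pi * Real.log ‖rho f b‖ := by positivity
  linarith

/-- the radii without a branch at the level `q`. -/
def PH2_J (f : Polynomial ℂ) (y ρ₁ : ℝ) (χ : ℂ → ℂ) (G1 : ℕ → ℂ → ℂ) (ps : ℕ) (T : ℕ → ℝ)
    (G : ℕ → ℂ → ℂ) (q : ℕ) : Set ℝ :=
  {r | ρ₁ < r ∧ T (q + 1) < r ∧ r < T q ∧
    (1 ≤ q → q ≠ ps → Disjoint (G q '' ball (ctr y ρ₁) r) (χ '' ball (ctr y ρ₁) (9 * ρ₁ / 8))) ∧
    ¬ Br f (G q) (ball (ctr y ρ₁) r) (ctr y ρ₁) (GW G1 (q + 1) (ctr y ρ₁))}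

theorem PH2_vol (hEV2 : EV2_stmt) (h : H2 n k f b g ψ ra R ε y ρ₁ χ G1 ps T G k)
    (hε : ε ≤ ρ₁ ^ 2 / cn n)
    (hfail : ∀ q < k, ∀ r, T (q + 1) < r → r < T q → Fail2 f y ρ₁ χ G1 ps G q r) {q : ℕ} (hq : q < k) :
    volume (PH2_J f y ρ₁ χ G1 ps T G q) ≤ ENNReal.ofReal (ρ₁ / (32 * n)) := by
  have hsub : PH2_J f y ρ₁ χ G1 ps T G q ⊆ Ioo (T (q + 1)) (T (q + 1) + ρ₁ / (32 * n)) := by
    rintro r ⟨h1, h2, h3, h4, h5⟩
    refine ⟨h2, ?_⟩
    refine hEV2 n k f b g ψ ra R ε y ρ₁ χ G1 ps T G q (PH2_restrict h (by omega)) hε r h3.le h4 ?_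
    intro r' hr1 hr2
    rcases hfail q hq r' hr1 (hr2.trans_lt h3) with h6 | h6
    · exact absurd ((h4 h6.1 h6.2.1).mono_left (image_mono (ball_subset_ball hr2))) h6.2.2
    · exact h6
  refine (measure_mono hsub).trans ?_
  rw [Real.volume_Ioo]
  exact ENNReal.ofReal_le_ofReal (by linarith)

theorem PH2_crit (hLIFT : LIFT_stmt) (h : H2 n k f b g ψ ra R ε y ρ₁ χ G1 ps T G k) {q : ℕ} (hq : q < k)
    {r : ℝ} (hr : r ∈ PH2_J f y ρ₁ χ G1 ps T G q) :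
    ∃ w ∈ ball (ctr y ρ₁) r, G q w ∈ CV f := by
  obtain ⟨h1, h2, h3, h4, h5⟩ := hr
  by_contra hcon
  push Not at hcon
  have hρ : 0 < ρ₁ := h.su2.r0
  apply h5
  have hx : ctr y ρ₁ ∈ ball (ctr y ρ₁) (T (q + 1)) := by
    refine mem_ball_self ?_
    have := h.sys.low (q + 1) (by omega)
    linarith
  refine hLIFT f (ball (ctr y ρ₁) r) (G q) (ctr y ρ₁) (GW G1 (q + 1) (ctr y ρ₁)) ?_ isOpen_ball
    (convex_ball _ _) ?_ hcon (mem_ball_self (by linarith)) ?_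
  · rw [h.su2.su.hdeg]; linarith [h.su2.su.hn]
  · exact (h.sys.diff q (by omega)).mono (ball_subset_ball h3.le)
  · have h6 := (h.sys.rel q hq _ hx).1
    rw [h.sys.val (q + 1) (by omega)] at h6
    exact h6

theorem PH2_pair (h : H2 n k f b g ψ ra R ε y ρ₁ χ G1 ps T G k) {q₁ q₂ : ℕ} (h12 : q₁ < q₂)
    (h2 : q₂ < k) {r₁ r₂ : ℝ} (n1 : r₁ ∈ PH2_J f y ρ₁ χ G1 ps T G q₁)
    (n2 : r₂ ∈ PH2_J f y ρ₁ χ G1 ps T G q₂) {w w' : ℂ} (hw : w ∈ ball (ctr y ρ₁) r₁)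
    (hw' : w' ∈ ball (ctr y ρ₁) r₂) (he : G q₁ w = G q₂ w') : q₂ = q₁ + ps := by
  obtain ⟨hr1, -, hr1T, -, -⟩ := n1
  obtain ⟨hr2, -, hr2T, hgood, -⟩ := n2
  have hwT : w ∈ ball (ctr y ρ₁) (T q₁) := ball_subset_ball hr1T.le hw
  have hwT' : w' ∈ ball (ctr y ρ₁) (T q₂) := ball_subset_ball hr2T.le hw'
  have e1 := PH2_iter h (by omega : q₁ ≤ k) hwT le_rfl
  have e2 := PH2_iter h h2.le hwT' h12.le
  rw [Nat.sub_self, h.sys.g0, he] at e1
  rw [e1] at e2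
  have hT0 : T q₁ ≤ 9 * ρ₁ / 8 := (PH2_anti h (Nat.zero_le q₁) (by omega)).trans h.sys.t0
  have hwρ : w ∈ ball (ctr y ρ₁) (9 * ρ₁ / 8) := ball_subset_ball hT0 hwT
  by_contra hne
  rcases Nat.eq_zero_or_pos q₁ with h0 | h0
  · subst h0
    have hd := hgood (by omega) (by omega)
    rw [Set.disjoint_left] at hd
    refine hd ⟨w', hw', rfl⟩ ⟨w, hwρ, ?_⟩
    rw [e2, Nat.sub_zero]
  · have hd := h.sys.disj (q₂ - q₁) (by omega) (by omega) (by omega)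
    rw [Set.disjoint_left] at hd
    refine hd ⟨w', ?_, rfl⟩ ⟨w, hwρ, e2⟩
    exact ball_subset_ball (PH2_anti h (by omega) h2.le) hwT'

theorem PH2_card (hLIFT : LIFT_stmt) (hPRB : PRB_stmt) (h : H2 n k f b g ψ ra R ε y ρ₁ χ G1 ps T G k)
    (F : Finset ℕ) (hF : ∀ q ∈ F, q < k ∧ (PH2_J f y ρ₁ χ G1 ps T G q).Nonempty) :
    F.card ≤ 2 * (n - 1) := by
  classical
  have hdeg1 : 1 ≤ f.natDegree := by rw [h.su2.su.hdeg]; linarith [h.su2.su.hn]
  obtain ⟨-, -, -, -, hfin, hcard⟩ := hPRB f hdeg1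
  have hex : ∀ q : ℕ, ∃ (r : ℝ) (w : ℂ), q ∈ F → r ∈ PH2_J f y ρ₁ χ G1 ps T G q ∧ w ∈ ball (ctr y ρ₁) r ∧
      G q w ∈ CV f := by
    intro q
    by_cases hq : q ∈ F
    · obtain ⟨hqk, r, hr⟩ := hF q hq
      obtain ⟨w, hw, hc⟩ := PH2_crit hLIFT h hqk hr
      exact ⟨r, w, fun _ => ⟨hr, hw, hc⟩⟩
    · exact ⟨0, 0, fun h => absurd h hq⟩
  choose r w hrw using hex
  have hpair : ∀ p ∈ F, ∀ q ∈ F, G p (w p) = G q (w q) → p < q → q = p + ps := fun p hp q hq he hpq =>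
    PH2_pair h hpq (hF q hq).1 (hrw p hp).1 (hrw q hq).1 (hrw p hp).2.1 (hrw q hq).2.1 he
  have h1 : F.card ≤ 2 * (F.image (fun q => G q (w q))).card := by
    apply Finset.card_le_mul_card_image
    intro v hv
    by_contra hcon
    rw [not_le] at hcon
    obtain ⟨a, ha, b', hb, c', hc, hab, hac, hbc⟩ := Finset.two_lt_card.1 hcon
    rw [Finset.mem_filter] at ha hb hc
    have k1 := hpair a ha.1 b' hb.1 (ha.2.trans hb.2.symm)
    have k2 := hpair b' hb.1 a ha.1 (hb.2.trans ha.2.symm)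
    have k3 := hpair a ha.1 c' hc.1 (ha.2.trans hc.2.symm)
    have k4 := hpair c' hc.1 a ha.1 (hc.2.trans ha.2.symm)
    have k5 := hpair b' hb.1 c' hc.1 (hb.2.trans hc.2.symm)
    have k6 := hpair c' hc.1 b' hb.1 (hc.2.trans hb.2.symm)
    omega
  have h2 : (F.image (fun q => G q (w q))).card ≤ n - 1 := by
    have h3 : ((F.image (fun q => G q (w q)) : Finset ℂ) : Set ℂ) ⊆ CV f := by
      intro v hv
      rw [Finset.mem_coe, Finset.mem_image] at hv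
      obtain ⟨q, hq, rfl⟩ := hv
      exact (hrw q hq).2.2
    have h4 := Set.ncard_le_ncard h3 hfin
    rw [Set.ncard_coe_finset] at h4
    rw [h.su2.su.hdeg] at hcard
    exact h4.trans hcard
  calc F.card ≤ 2 * (F.image (fun q => G q (w q))).card := h1
    _ ≤ 2 * (n - 1) := by omega

theorem PH2_final (hMU2 : MU2_stmt) (hREACH2 : REACH2_stmt) (hEV2 : EV2_stmt) (hCHEB : CHEB_stmt)
    (hLIFT : LIFT_stmt) (hPRB : PRB_stmt) (h : H2 n k f b g ψ ra R ε y ρ₁ χ G1 ps T G k)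
    (hε : ε ≤ ρ₁ ^ 2 / cn n) (hT0 : T 0 = 9 * ρ₁ / 8)
    (hfail : ∀ q < k, ∀ r, T (q + 1) < r → r < T q → Fail2 f y ρ₁ χ G1 ps G q r) : ρ₁ < T k := by
  classical
  by_contra hcon
  rw [not_lt] at hcon
  have hρ : 0 < ρ₁ := h.su2.r0
  have hn : 2 ≤ n := h.su2.su.hn
  have hε0 : 0 ≤ ε := PH2_eps h
  obtain ⟨μ, hμ, hMu⟩ := hMU2 n k f b g ψ ra R ε y ρ₁ χ G1 ps T G k h
  have hcn : (10 : ℝ) ^ 7 ≤ cn n := by
    unfold cn
    have h1 : (4 : ℝ) ^ 40 ≤ (4 : ℝ) ^ (40 + 2 * n) := pow_le_pow_right₀ (by norm_num) (by omega)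
    have h2 : (1 : ℝ) ≤ (n : ℝ) ^ 2 := one_le_pow₀ (by exact_mod_cast (by omega : 1 ≤ n))
    calc (10 : ℝ) ^ 7 ≤ 4 ^ 40 * 1 := by norm_num
      _ ≤ (4 : ℝ) ^ (40 + 2 * n) * (n : ℝ) ^ 2 := by gcongr
  have hε7 : ε ≤ ρ₁ ^ 2 / 10 ^ 7 := by
    refine hε.trans ?_
    gcongr
  -- the set of type (i)
  set S1 : Set ℝ := {r | ENNReal.ofReal ρ₁ ≤ PsiM μ (ρ₁ / 8) (9 * ρ₁ / 8 - r)} with hS1
  have hS1v : volume S1 ≤ ENNReal.ofReal (ρ₁ / 100) := by
    have h1 := hCHEB μ (ρ₁ / 8) (400 * ε) ρ₁ (by positivity) (by positivity) hρ hμ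
    have h2 : volume S1 = volume {s : ℝ | ENNReal.ofReal ρ₁ ≤ PsiM μ (ρ₁ / 8) s} :=
      MeasurePreserving.measure_preimage_equiv (f := MeasurableEquiv.subLeft (9 * ρ₁ / 8))
        (Measure.measurePreserving_sub_left (volume : Measure ℝ) (9 * ρ₁ / 8))
        {s : ℝ | ENNReal.ofReal ρ₁ ≤ PsiM μ (ρ₁ / 8) s}
    rw [h2]
    refine h1.trans (ENNReal.ofReal_le_ofReal ?_)
    have hπ : (3 : ℝ) < Real.pi := Real.pi_gt_three
    rw [div_le_iff₀ (by positivity)]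
    have h3 : ε ≤ ρ₁ ^ 2 / 1000000 := by
      refine hε7.trans ?_
      gcongr
      norm_num
    have h4 : ρ₁ ^ 2 * ρ₁ * 3 ≤ ρ₁ ^ 2 * ρ₁ * Real.pi := by gcongr
    have h5 : ρ₁ * ε ≤ ρ₁ * (ρ₁ ^ 2 / 1000000) := by gcongr
    have h6 : 0 < ρ₁ ^ 2 * ρ₁ := by positivity
    nlinarith
  set F : Finset ℕ := (Finset.range k).filter
    fun q => (PH2_J f y ρ₁ χ G1 ps T G q).Nonempty with hF
  have hFm : ∀ q ∈ F, q < k ∧ (PH2_J f y ρ₁ χ G1 ps T G q).Nonempty := by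
    intro q hq
    rw [hF, Finset.mem_filter, Finset.mem_range] at hq
    exact hq
  have hFc : F.card ≤ 2 * (n - 1) := PH2_card hLIFT hPRB h F hFm
  set D : Set ℝ := T '' ((Finset.range (k + 1) : Finset ℕ) : Set ℕ) with hD
  have hDv : volume D = 0 := ((Finset.finite_toSet _).image T).measure_zero _
  have hcov : Ioo ρ₁ (9 * ρ₁ / 8) ⊆ S1 ∪ ((⋃ q ∈ F, PH2_J f y ρ₁ χ G1 ps T G q) ∪ D) := by
    intro r hr
    by_cases hrD : r ∈ D
    · exact Or.inr (Or.inr hrD)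
    have hrne : ∀ q, q ≤ k → r ≠ T q := by
      intro q hq hrq
      exact hrD ⟨q, by simpa using Nat.lt_succ_of_le hq, hrq.symm⟩
    -- the maximal q with r < T q
    obtain ⟨q, hqk, hrq, hlow⟩ : ∃ q, q < k ∧ r < T q ∧ T (q + 1) < r := by
      have hex : ∃ q ∈ (Finset.range (k + 1)).filter (fun q => r < T q),
          ∀ p ∈ (Finset.range (k + 1)).filter (fun q => r < T q), p ≤ q :=
        Finset.exists_max_image _ (fun q => q) ⟨0, by simp [hT0, hr.2]⟩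
      obtain ⟨q, hq, hmax⟩ := hex
      rw [Finset.mem_filter, Finset.mem_range] at hq
      have hqk : q < k := by
        rcases Nat.lt_or_ge q k with h1 | h1
        · exact h1
        · have h2 : q = k := by omega
          rw [h2] at hq
          linarith [hq.2, hr.1]
      refine ⟨q, hqk, hq.2, ?_⟩
      by_contra hcon'
      have h1 : r < T (q + 1) := lt_of_le_of_ne (not_lt.1 hcon') (hrne (q + 1) (by omega))
      have h2 := hmax (q + 1) (by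
        rw [Finset.mem_filter, Finset.mem_range]
        exact ⟨by omega, h1⟩)
      omega
    have hF2 := hfail q hqk r hlow hrq
    by_cases hA : 1 ≤ q ∧ q ≠ ps ∧
        ¬ Disjoint (G q '' ball (ctr y ρ₁) r) (χ '' ball (ctr y ρ₁) (9 * ρ₁ / 8))
    · left
      exact hREACH2 n k f b g ψ ra R ε y ρ₁ χ G1 ps T G k μ h hε7 hMu q r hA.1 hqk hqk.le hA.2.1
        hr.1.le hrq.le hA.2.2
    · right
      left
      have hc : ¬ Br f (G q) (ball (ctr y ρ₁) r) (ctr y ρ₁) (GW G1 (q + 1) (ctr y ρ₁)) := by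
        rcases hF2 with h1 | h1
        · exact absurd h1 hA
        · exact h1
      have hmem : r ∈ PH2_J f y ρ₁ χ G1 ps T G q := by
        refine ⟨hr.1, hlow, hrq, fun h1 h2 => ?_, hc⟩
        by_contra h3
        exact hA ⟨h1, h2, h3⟩
      have hqF : q ∈ F := by
        rw [hF, Finset.mem_filter, Finset.mem_range]
        exact ⟨hqk, r, hmem⟩
      exact mem_biUnion hqF hmem
  have hnR : (0 : ℝ) < n := by exact_mod_cast (by omega : 0 < n)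
  have hvol : volume (Ioo ρ₁ (9 * ρ₁ / 8)) ≤ ENNReal.ofReal (ρ₁ / 100 + ρ₁ / 16) := by
    calc volume (Ioo ρ₁ (9 * ρ₁ / 8)) ≤ volume (S1 ∪ ((⋃ q ∈ F, PH2_J f y ρ₁ χ G1 ps T G q) ∪ D)) :=
          measure_mono hcov
      _ ≤ volume S1 + volume ((⋃ q ∈ F, PH2_J f y ρ₁ χ G1 ps T G q) ∪ D) :=
          measure_union_le _ _
      _ ≤ volume S1 + (volume (⋃ q ∈ F, PH2_J f y ρ₁ χ G1 ps T G q) + volume D) := by
          gcongr
          exact measure_union_le _ _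
      _ ≤ ENNReal.ofReal (ρ₁ / 100) + (∑ q ∈ F, ENNReal.ofReal (ρ₁ / (32 * n)) + 0) := by
          refine add_le_add hS1v (add_le_add ?_ hDv.le)
          refine (measure_biUnion_finset_le F _).trans (Finset.sum_le_sum fun q hq => ?_)
          exact PH2_vol hEV2 h hε hfail (hFm q hq).1
      _ ≤ ENNReal.ofReal (ρ₁ / 100) + ENNReal.ofReal (ρ₁ / 16) := by
          refine add_le_add le_rfl ?_
          rw [add_zero, Finset.sum_const, nsmul_eq_mul, ← ENNReal.ofReal_natCast,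
            ← ENNReal.ofReal_mul (by positivity)]
          refine ENNReal.ofReal_le_ofReal ?_
          have h1 : (F.card : ℝ) ≤ 2 * n := by
            have : F.card ≤ 2 * n := by omega
            exact_mod_cast this
          calc (F.card : ℝ) * (ρ₁ / (32 * n)) ≤ (2 * n) * (ρ₁ / (32 * n)) := by gcongr
            _ = ρ₁ / 16 := by field_simp; ring
      _ = ENNReal.ofReal (ρ₁ / 100 + ρ₁ / 16) := by
          rw [ENNReal.ofReal_add (by positivity) (by positivity)]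
  rw [Real.volume_Ioo, ENNReal.ofReal_le_ofReal_iff (by positivity)] at hvol
  linarith

end

theorem PH2 (hSEQ2 : SEQ2_stmt) (hMU2 : MU2_stmt) (hREACH2 : REACH2_stmt) (hEV2 : EV2_stmt)
    (hCHEB : CHEB_stmt) (hLIFT : LIFT_stmt) (hPRB : PRB_stmt) : PH2_stmt := by
  intro n k _ f b g ψ ra R ε y ρ₁ χ G1 ps h hε
  obtain ⟨T, G, hH, hT, hF⟩ := hSEQ2 n k f b g ψ ra R ε y ρ₁ χ G1 ps h hε
  refine ⟨T k, G, PH2_final hMU2 hREACH2 hEV2 hCHEB hLIFT hPRB hH hε hT hF, h, ?_, le_rfl⟩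
  have hle : ∀ q ≤ k, T k ≤ T q := fun q hq => PH2_anti hH hq le_rfl
  exact
    { t0 := (hle 0 (by omega)).trans hH.sys.t0
      anti := fun _ _ => le_rfl
      low := fun q _ => hH.sys.low k le_rfl
      g0 := hH.sys.g0
      diff := fun q hq => (hH.sys.diff q hq).mono (ball_subset_ball (hle q hq))
      rel := fun q hq w hw => hH.sys.rel q hq w (ball_subset_ball (hle (q + 1) (by omega)) hw)
      val := hH.sys.val
      disj := fun q h1 h2 h3 => (hH.sys.disj q h1 h2 h3).mono_left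
        (image_mono (ball_subset_ball (hle (q + 1) (by omega)))) }

end PPS
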